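import Mathlib
import Pool.Agent.H12.Pot

set_option autoImplicit false

namespace Pool.Agent.Results.MP_102303_co.RealPOT

open Finset Equiv Matrix Nat Pool.Agent.H12.Pot Pool.Agent.H12.Rank2Perm

/-- The Schur power matrix. -/
def schur {n : ℕ} (A : Matrix (Fin n) (Fin n) ℝ) : Matrix (Perm (Fin n)) (Perm (Fin n)) ℝ :=
  Matrix.of fun σ τ => ∏ i, A (σ i) (τ i)

/-- The permanent is the largest eigenvalue of the Schur power matrix. -/
def POT {n : ℕ} (A : Matrix (Fin n) (Fin n) ℝ) : Prop :=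
  IsGreatest (spectrum ℝ (schur A)) A.permanent

theorem rayleigh {n : ℕ} (A : Matrix (Fin n) (Fin n) ℝ) (hA : A.IsHermitian) (h : POT A)
    (x : Perm (Fin n) → ℝ) :
    ∑ σ, ∑ τ, x σ * x τ * ∏ i, A (σ i) (τ i) ≤ A.permanent * ∑ σ, x σ ^ 2 := by
  have h1 : (algebraMap ℝ _ A.permanent - schur A).IsHermitian := by
    refine IsHermitian.sub (by simp [algebraMap_eq_diagonal]) ?_
    ext σ τ
    simp only [schur, conjTranspose_apply, of_apply, star_trivial]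
    exact prod_congr rfl fun i _ => by simpa using hA.apply (σ i) (τ i)
  have h2 := (h1.posSemidef_iff_eigenvalues_nonneg.2 fun i => by
    have := h1.eigenvalues_mem_spectrum_real i
    rw [← spectrum.singleton_sub_eq] at this
    obtain ⟨a, rfl, b, hb, e⟩ := this
    exact e ▸ sub_nonneg.2 (h.2 hb)).dotProduct_mulVec_nonneg x
  rw [sub_mulVec, dotProduct_sub, sub_nonneg, Algebra.algebraMap_eq_smul_one, smul_mulVec,
    one_mulVec, dotProduct_smul] at h2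
  simpa [dotProduct, mulVec, schur, mul_sum, sq, mul_comm, mul_left_comm, mul_assoc] using h2

theorem avg {ι : Type} [Fintype ι] [DecidableEq ι] (T : Finset ι) (F : Finset ι → ℤ)
    (hF : ∀ S, #S ≠ #T → F S = 0) : ∑ σ : Perm ι, F (T.map σ.toEmbedding) =
      (((#T)! * (Fintype.card ι - #T)! : ℕ) : ℤ) * ∑ S, F S := by
  rw [← sum_fiberwise univ fun σ : Perm ι => T.map σ.toEmbedding, mul_sum]
  refine sum_congr rfl fun S _ => ?_
  rw [sum_congr rfl fun σ hσ => by rw [(mem_filter.1 hσ).2], sum_const, nsmul_eq_mul]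
  by_cases h : #S = #T
  · rw [card_map T S h.symm]
  · simp [hF S h]

theorem bound {n : ℕ} (hn : n = 13) (V : Fin n → Fin 3 → ℤ) (L : List (Finset (Fin n) × ℤ))
    (T : Finset (Fin n)) (hT : #T = 3) (L3 : ∀ p ∈ L, #p.1 = 3)
    (l1 : (qq 1 V [(∅, 1)]).1 < 2 ^ 80 ∧ (qq 1 V [(∅, 1)]).2 < 2 ^ 80)
    (l2 : (qq 1 V L).1 < 2 ^ 80 ∧ (qq 1 V L).2 < 2 ^ 80)
    (h : ∀ A : Matrix (Fin n) (Fin n) ℝ, A.PosSemidef → POT A) :
    en 3 V L ≤ en 0 V [(∅, 1)] * ∑ S ∈ (L.map Prod.fst).toFinset, yf L S ^ 2 := by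
  have y0 : ∀ S ∉ (L.map Prod.fst).toFinset, yf L S = 0 := fun S h =>
    List.sum_eq_zero fun x hx => by
      obtain ⟨p, hp, rfl⟩ := List.mem_map.1 hx
      exact if_neg fun e => h (List.mem_toFinset.2 (List.mem_map.2 ⟨p, hp, e.symm⟩))
  have y3 : ∀ S, #S ≠ #T → yf L S = 0 := fun S h => y0 S fun hS => by
    obtain ⟨p, hp, rfl⟩ := List.mem_map.1 (List.mem_toFinset.1 hS)
    exact h (hT ▸ L3 p hp)
  rw [sum_subset (subset_univ _) fun S _ h => by rw [y0 S h]; rfl]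
  let B : Matrix (Fin n) (Fin 3) ℝ := Matrix.of fun i c => V i c
  have hB := posSemidef_self_mul_conjTranspose B
  have eA : ∀ i j, (B * Bᴴ) i j = ((∑ c, V i c * V j c : ℤ) : ℝ) := fun i j => by
    simp [B, Matrix.mul_apply]
  have h1 := rayleigh _ hB.1 (h _ hB) fun σ => yf L (T.map σ.toEmbedding)
  have e1 : (B * Bᴴ).permanent = (en 0 V [(∅, 1)] : ℤ) := by
    rw [← main hn V [(∅, 1)] (by norm_num) (by simp) l1, sum_eq_single ∅ (fun S _ hS => by
      simp [yf, hS]) (by simp)]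
    simp only [permanent, eA]
    simp [yf, mul_comm]
  have e2 := avg T (fun S => yf L S ^ 2) fun S hS => by rw [y3 S hS]; rfl
  have e3 := avg T (fun S => ∑ ρ : Perm (Fin n), yf L S * yf L (S.map ρ.toEmbedding) *
    ∏ j, ∑ c, V j c * V (ρ j) c) fun S hS => by simp [y3 S hS]
  rw [main hn V L le_rfl L3 l2] at e3
  have e4 : ∀ σ : Perm (Fin n), ∑ τ : Perm (Fin n), yf L (T.map σ.toEmbedding) *
      yf L (T.map τ.toEmbedding) * ∏ i, ∑ c, V (σ i) c * V (τ i) c =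
      ∑ ρ : Perm (Fin n), yf L (T.map σ.toEmbedding) *
        yf L ((T.map σ.toEmbedding).map ρ.toEmbedding) * ∏ j, ∑ c, V j c * V (ρ j) c := fun σ => by
    rw [← Equiv.sum_comp (Equiv.mulRight σ)]
    refine sum_congr rfl fun ρ _ => ?_
    rw [← Equiv.prod_comp σ fun j => ∑ c, V j c * V (ρ j) c, Finset.map_map]
    rfl
  simp only [eA, e1] at h1
  norm_cast at h1
  simp only [e4] at h1
  rw [e2, e3, mul_left_comm] at h1
  exact le_of_mul_le_mul_left h1 (by positivity)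

def V : Fin 13 → Fin 3 → ℤ :=
  ![![-15, 9, -9], ![-3, 20, 1], ![15, -7, -12], ![5, -4, -19], ![19, 5, 0], ![-4, -18, -8],
    ![6, 8, -17], ![-16, -5, 11], ![6, -10, 16], ![7, 19, -2], ![15, 3, 12], ![18, -8, -1],
    ![-6, -2, -19]]

def L : List (Finset (Fin 13) × ℤ) :=
  [({0, 1, 2}, 1), ({0, 1, 5}, -4), ({0, 1, 9}, -5), ({0, 1, 11}, 1), ({1, 2, 5}, -7),
    ({1, 2, 8}, 1), ({1, 2, 9}, -2), ({1, 3, 5}, -6), ({1, 4, 9}, -2), ({1, 5, 9}, 30),
    ({1, 5, 10}, -2), ({1, 5, 11}, -6), ({1, 5, 12}, -4), ({1, 6, 9}, -6), ({1, 7, 9}, -4),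
    ({1, 8, 9}, -6), ({1, 9, 11}, -4), ({2, 5, 10}, 1), ({3, 5, 9}, -3), ({3, 5, 10}, 1),
    ({3, 5, 12}, 1), ({4, 5, 9}, -7), ({4, 6, 9}, 1), ({4, 7, 9}, 1), ({5, 6, 9}, -2),
    ({5, 7, 9}, -5), ({5, 9, 10}, -6), ({5, 9, 12}, -4), ({5, 10, 12}, 1), ({6, 7, 9}, 1)]

theorem num : en 0 V [(∅, 1)] * 1343 < en 3 V L := by decide +kernel

theorem result : ¬ ∀ n ≤ 15, ∀ A : Matrix (Fin n) (Fin n) ℝ, A.PosSemidef → POT A := by
  intro h
  have h1 := bound rfl V L {0, 1, 2} rfl (by decide +kernel) (by decide +kernel)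
    (by decide +kernel) (h 13 (by norm_num))
  rw [show ∑ S ∈ (L.map Prod.fst).toFinset, yf L S ^ 2 = 1343 by decide +kernel] at h1
  exact absurd h1 (not_le.2 num)

end Pool.Agent.Results.MP_102303_co.RealPOT
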